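import Mathlib
import Pool.Agent.TH278.DX.Defs3

/-!
# Finite groups of large girth
-/

set_option autoImplicit false

namespace Pool.Agent.TH448.J5171

open FreeGroup

/-- the ball of radius `n` in the free group -/
abbrev Ball (ι : Type) [DecidableEq ι] (n : ℕ) : Type := {w : FreeGroup ι // w.norm ≤ n}

variable {ι : Type} [Fintype ι] [DecidableEq ι]

instance finite_ball (n : ℕ) : Finite (Ball ι n) := by
  have h : {l : List (ι × Bool) | l.length ≤ n}.Finite := List.finite_length_le _ n
  have h2 : Finite {l : List (ι × Bool) | l.length ≤ n} := h.to_subtype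
  refine Finite.of_injective
    (fun w : Ball ι n => (⟨w.1.toWord, w.2⟩ : {l : List (ι × Bool) | l.length ≤ n})) ?_
  intro a b h
  have h3 : a.1.toWord = b.1.toWord := congrArg Subtype.val h
  exact Subtype.ext (toWord_injective h3)

/-- left multiplication by a generator, where it stays in the ball -/
def ei (n : ℕ) (i : ι) : {b : Ball ι n // (of i * b.1).norm ≤ n} ≃
    {b : Ball ι n // ((of i)⁻¹ * b.1).norm ≤ n} where
  toFun b := ⟨⟨of i * b.1.1, b.2⟩, by
    show ((of i)⁻¹ * (of i * b.1.1)).norm ≤ n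
    rw [inv_mul_cancel_left]
    exact b.1.2⟩
  invFun b := ⟨⟨(of i)⁻¹ * b.1.1, b.2⟩, by
    show (of i * ((of i)⁻¹ * b.1.1)).norm ≤ n
    rw [mul_inv_cancel_left]
    exact b.1.2⟩
  left_inv b := by
    apply Subtype.ext
    apply Subtype.ext
    exact inv_mul_cancel_left _ _
  right_inv b := by
    apply Subtype.ext
    apply Subtype.ext
    exact mul_inv_cancel_left _ _

/-- a permutation of the ball which is left multiplication by the generator where this stays in
the ball -/
noncomputable def qi (n : ℕ) (i : ι) : Equiv.Perm (Ball ι n) := by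
  classical
  exact (ei n i).extendSubtype

theorem qi_apply (n : ℕ) (i : ι) (b : Ball ι n) (h : (of i * b.1).norm ≤ n) :
    qi n i b = ⟨of i * b.1, h⟩ := by
  classical
  unfold qi
  rw [Equiv.extendSubtype_apply_of_mem (ei n i) b h]
  rfl

theorem qi_inv_apply (n : ℕ) (i : ι) (b : Ball ι n) (h : ((of i)⁻¹ * b.1).norm ≤ n) :
    (qi n i)⁻¹ b = ⟨(of i)⁻¹ * b.1, h⟩ := by
  rw [Equiv.Perm.inv_eq_iff_eq, qi_apply n i ⟨(of i)⁻¹ * b.1, h⟩ (by
    show (of i * ((of i)⁻¹ * b.1)).norm ≤ n
    rw [mul_inv_cancel_left]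
    exact b.2)]
  apply Subtype.ext
  exact (mul_inv_cancel_left _ _).symm

/-- the neutral element -/
def one (n : ℕ) : Ball ι n := ⟨1, by rw [FreeGroup.norm_one]; exact Nat.zero_le n⟩

theorem lift_mk (n : ℕ) : ∀ (L : List (ι × Bool)) (hL : L.length ≤ n),
    FreeGroup.lift (qi n) (mk L) (one n) = ⟨mk L, norm_mk_le.trans hL⟩ := by
  intro L
  induction L with
  | nil =>
    intro hL
    apply Subtype.ext
    rfl
  | cons x L ih =>
    intro hL
    have hL' : L.length ≤ n := by
      rw [List.length_cons] at hL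
      omega
    have h1 : (mk (x :: L) : FreeGroup ι) = mk [x] * mk L := by
      rw [mul_mk]
      rfl
    have h2 : ((mk [x] : FreeGroup ι) * mk L).norm ≤ n := by
      rw [← h1]
      exact norm_mk_le.trans hL
    have h3 : FreeGroup.lift (qi n) (mk (x :: L)) (one n) =
        FreeGroup.lift (qi n) (mk [x]) ⟨mk L, norm_mk_le.trans hL'⟩ := by
      rw [h1, _root_.map_mul, Equiv.Perm.mul_apply, ih hL']
    rw [h3]
    obtain ⟨i, c⟩ := x
    cases c
    · have h4 : (mk [(i, false)] : FreeGroup ι) = (of i)⁻¹ := rfl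
      have h5 : FreeGroup.lift (qi n) (mk [(i, false)]) = (qi n i)⁻¹ := by
        rw [h4, _root_.map_inv, FreeGroup.lift_apply_of]
      rw [h4] at h2
      rw [h5, qi_inv_apply n i _ h2]
      apply Subtype.ext
      show (of i)⁻¹ * mk L = mk ((i, false) :: L)
      rw [h1, h4]
    · have h4 : (mk [(i, true)] : FreeGroup ι) = of i := rfl
      have h5 : FreeGroup.lift (qi n) (mk [(i, true)]) = qi n i := by
        rw [h4, FreeGroup.lift_apply_of]
      rw [h4] at h2
      rw [h5, qi_apply n i _ h2]
      apply Subtype.ext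
      show of i * mk L = mk ((i, true) :: L)
      rw [h1, h4]

theorem girth : Pool.Agent.TH278.DX.GirthProp := by
  intro ι _ _ n
  classical
  have : Fintype (Ball ι n) := Fintype.ofFinite _
  refine ⟨Equiv.Perm (Ball ι n), inferInstance, inferInstance, qi n, ?_⟩
  intro w hw hn h
  apply hw
  have h1 := congrArg Subtype.val (lift_mk n w.toWord hn)
  have h2 : (FreeGroup.lift (qi n)) (mk w.toWord) = 1 := by rw [mk_toWord, h]
  rw [h2] at h1
  have h3 : (1 : FreeGroup ι) = mk w.toWord := h1
  rw [mk_toWord] at h3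
  exact h3.symm

end Pool.Agent.TH448.J5171
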